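import Mathlib

/-!
# MP_b55b7c_an: a small perturbation of `Q N Q + (1 - Q)` is brought back to the corner
-/

noncomputable section
namespace RC
universe u

theorem ar_norm_one_le {D : Type u} [CStarAlgebra D] : ‖(1 : D)‖ ≤ 1 := by
  rcases subsingleton_or_nontrivial D with h | h
  · rw [Subsingleton.elim (1 : D) 0, norm_zero]
    exact zero_le_one
  · exact (CStarRing.norm_one (E := D)).le

theorem ar_corner {D : Type u} [CStarAlgebra D] (Q N Z : D) (κ t : ℝ)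
    (hQ : Q * Q = Q) (hN1 : Q * N = N) (hN2 : N * Q = N) (hq : ‖Q‖ ≤ κ) (hq' : ‖1 - Q‖ ≤ κ)
    (ht : κ ^ 2 * t ≤ 1 / 2) (hZ : ‖Z - (N + (1 - Q))‖ ≤ t) :
    ∃ Y : D, Q * (Y * Q) = Q ∧ (1 - Q) * (Z * (Y * Q)) = 0 ∧
      ‖Z * (Y * Q) - N‖ ≤ 2 * (κ ^ 2 * t) := by
  have hκ : 0 ≤ κ := (norm_nonneg _).trans hq
  have ht0 : 0 ≤ t := (norm_nonneg _).trans hZ
  obtain ⟨E, hE⟩ : ∃ E : D, E = 1 - Q := ⟨_, rfl⟩
  obtain ⟨Dl, hDl⟩ : ∃ Dl : D, Dl = Z - (N + E) := ⟨_, rfl⟩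
  have hEn : ‖E‖ ≤ κ := by rw [hE]; exact hq'
  have hDn : ‖Dl‖ ≤ t := by rw [hDl, hE]; exact hZ
  have hZe : Z = N + E + Dl := by rw [hDl]; abel
  have hQE : Q * E = 0 := by rw [hE, mul_sub, mul_one, hQ, sub_self]
  have hEQ : E * Q = 0 := by rw [hE, sub_mul, one_mul, hQ, sub_self]
  have hEE : E * E = E := by
    conv_lhs => rw [hE, sub_mul, one_mul, ← hE, hQE, sub_zero]
  have hEN : E * N = 0 := by rw [hE, sub_mul, one_mul, hN1, sub_self]
  have hNE : N * E = 0 := by rw [hE, mul_sub, mul_one, hN2, sub_self]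
  have hy : ‖E * Dl * E‖ ≤ κ ^ 2 * t := by
    calc ‖E * Dl * E‖ ≤ ‖E * Dl‖ * ‖E‖ := norm_mul_le _ _
      _ ≤ (‖E‖ * ‖Dl‖) * ‖E‖ := by gcongr; exact norm_mul_le _ _
      _ ≤ (κ * t) * κ := by gcongr
      _ = _ := by ring
  have hu : IsUnit (1 + E * Dl * E) := by
    have h1 : ‖-(E * Dl * E)‖ < 1 := by
      rw [norm_neg]; linarith
    have h2 := isUnit_one_sub_of_norm_lt_one h1
    rwa [sub_neg_eq_add] at h2
  obtain ⟨U, hU⟩ := hu
  obtain ⟨V, hV⟩ : ∃ V : D, V = ↑U⁻¹ := ⟨_, rfl⟩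
  have hV1 : V * (1 + E * Dl * E) = 1 := by rw [hV, ← hU]; exact U.inv_mul
  have hV2 : (1 + E * Dl * E) * V = 1 := by rw [hV, ← hU]; exact U.mul_inv
  have hQy : Q * (1 + E * Dl * E) = Q := by
    rw [mul_add, mul_one, ← mul_assoc, ← mul_assoc, hQE, zero_mul, zero_mul, add_zero]
  have hyQ : (1 + E * Dl * E) * Q = Q := by
    rw [add_mul, one_mul, mul_assoc (E * Dl), hEQ, mul_zero, add_zero]
  have hQV : Q * V = Q := by
    calc Q * V = Q * (1 + E * Dl * E) * V := by rw [hQy]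
      _ = Q := by rw [mul_assoc, hV2, mul_one]
  have hVQ : V * Q = Q := by
    calc V * Q = V * ((1 + E * Dl * E) * Q) := by rw [hyQ]
      _ = Q := by rw [← mul_assoc, hV1, one_mul]
  have hVE : V * E = V - Q := by rw [hE, mul_sub, mul_one, hVQ]
  have hEVE : E * (V * E) = V * E := by
    rw [hVE, mul_sub, hEQ, sub_zero, hE, sub_mul, one_mul, hQV]
  have hEZE : E * Z * E = (1 + E * Dl * E) * E := by
    rw [hZe]
    simp only [mul_add, add_mul, hEN, zero_add, one_mul, hEE, mul_assoc]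
  have hEZVE : E * Z * (V * E) = E := by
    calc E * Z * (V * E) = E * Z * (E * (V * E)) := by rw [hEVE]
      _ = E * Z * E * (V * E) := by rw [mul_assoc (E * Z)]
      _ = (1 + E * Dl * E) * E * (V * E) := by rw [hEZE]
      _ = (1 + E * Dl * E) * (V * E) := by rw [mul_assoc, hEVE]
      _ = E := by rw [← mul_assoc, hV2, one_mul]
  have hVn : ‖V‖ ≤ 2 := by
    have h1 : V = 1 - V * (E * Dl * E) := by
      have := hV1
      rw [mul_add, mul_one] at this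
      rw [← this]; abel
    have h2 : ‖V‖ ≤ 1 + ‖V‖ * (1 / 2) := by
      calc ‖V‖ = ‖1 - V * (E * Dl * E)‖ := by rw [← h1]
        _ ≤ ‖(1 : D)‖ + ‖V * (E * Dl * E)‖ := norm_sub_le _ _
        _ ≤ 1 + ‖V‖ * ‖E * Dl * E‖ := add_le_add ar_norm_one_le (norm_mul_le _ _)
        _ ≤ 1 + ‖V‖ * (1 / 2) := by gcongr; linarith
    linarith
  have hEZQ : E * Z * Q = E * Dl * Q := by
    rw [hZe]
    simp only [mul_add, add_mul, hEN, zero_add, hEE, hEQ]
  have hQZE : Q * Z * E = Q * Dl * E := by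
    rw [hZe]
    simp only [mul_add, add_mul, hQE, add_zero, hN1, hNE, zero_add]
  have hQZQ : Q * Z * Q = N + Q * Dl * Q := by
    rw [hZe]
    simp only [mul_add, add_mul, hQE, add_zero, hN1, hN2]
  refine ⟨1 - V * E * Z, ?_, ?_, ?_⟩
  · calc Q * ((1 - V * E * Z) * Q) = Q * Q - Q * V * E * Z * Q := by noncomm_ring
      _ = Q := by rw [hQV, hQE, zero_mul, zero_mul, sub_zero, hQ]
  · rw [← hE]
    calc E * (Z * ((1 - V * E * Z) * Q)) = E * Z * Q - E * Z * (V * E) * Z * Q := by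
          noncomm_ring
      _ = 0 := by rw [hEZVE, sub_self]
  · have h0 : E * (Z * ((1 - V * E * Z) * Q)) = 0 := by
      calc E * (Z * ((1 - V * E * Z) * Q)) = E * Z * Q - E * Z * (V * E) * Z * Q := by
            noncomm_ring
        _ = 0 := by rw [hEZVE, sub_self]
    have h1 : Z * ((1 - V * E * Z) * Q) - N =
        Q * Dl * Q - Q * Dl * E * V * (E * Dl * Q) := by
      have h2 : Z * ((1 - V * E * Z) * Q) = Q * (Z * ((1 - V * E * Z) * Q)) := by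
        have hQE1 : Q + E = 1 := by rw [hE]; abel
        calc Z * ((1 - V * E * Z) * Q) = (Q + E) * (Z * ((1 - V * E * Z) * Q)) := by
              rw [hQE1, one_mul]
          _ = Q * (Z * ((1 - V * E * Z) * Q)) := by rw [add_mul, h0, add_zero]
      rw [h2]
      calc Q * (Z * ((1 - V * E * Z) * Q)) - N = Q * Z * Q - Q * Z * (V * E) * Z * Q - N := by
            noncomm_ring
        _ = Q * Z * Q - Q * Z * (E * (V * E)) * Z * Q - N := by rw [hEVE]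
        _ = Q * Z * Q - (Q * Z * E) * V * (E * Z * Q) - N := by noncomm_ring
        _ = N + Q * Dl * Q - (Q * Dl * E) * V * (E * Dl * Q) - N := by rw [hQZQ, hQZE, hEZQ]
        _ = Q * Dl * Q - Q * Dl * E * V * (E * Dl * Q) := by abel
    rw [h1]
    have n1 : ‖Q * Dl * Q‖ ≤ κ ^ 2 * t := by
      calc ‖Q * Dl * Q‖ ≤ ‖Q * Dl‖ * ‖Q‖ := norm_mul_le _ _
        _ ≤ (‖Q‖ * ‖Dl‖) * ‖Q‖ := by gcongr; exact norm_mul_le _ _
        _ ≤ (κ * t) * κ := by gcongr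
        _ = _ := by ring
    have n2 : ‖Q * Dl * E‖ ≤ κ ^ 2 * t := by
      calc ‖Q * Dl * E‖ ≤ ‖Q * Dl‖ * ‖E‖ := norm_mul_le _ _
        _ ≤ (‖Q‖ * ‖Dl‖) * ‖E‖ := by gcongr; exact norm_mul_le _ _
        _ ≤ (κ * t) * κ := by gcongr
        _ = _ := by ring
    have n3 : ‖E * Dl * Q‖ ≤ κ ^ 2 * t := by
      calc ‖E * Dl * Q‖ ≤ ‖E * Dl‖ * ‖Q‖ := norm_mul_le _ _
        _ ≤ (‖E‖ * ‖Dl‖) * ‖Q‖ := by gcongr; exact norm_mul_le _ _
        _ ≤ (κ * t) * κ := by gcongr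
        _ = _ := by ring
    have hs : 0 ≤ κ ^ 2 * t := by positivity
    have n4 : ‖Q * Dl * E * V * (E * Dl * Q)‖ ≤ κ ^ 2 * t := by
      calc ‖Q * Dl * E * V * (E * Dl * Q)‖ ≤ ‖Q * Dl * E * V‖ * ‖E * Dl * Q‖ :=
            norm_mul_le _ _
        _ ≤ (‖Q * Dl * E‖ * ‖V‖) * ‖E * Dl * Q‖ := by gcongr; exact norm_mul_le _ _
        _ ≤ ((κ ^ 2 * t) * 2) * (κ ^ 2 * t) := by gcongr
        _ ≤ κ ^ 2 * t := by nlinarith
    calc _ ≤ ‖Q * Dl * Q‖ + ‖Q * Dl * E * V * (E * Dl * Q)‖ := norm_sub_le _ _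
      _ ≤ 2 * (κ ^ 2 * t) := by linarith

end RC
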