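import Pool.Agent.Helper29.AR.Props
import Pool.Agent.Helper48.SR.NearC
import Pool.Agent.Helper48.AR.Corner
import Pool.Agent.Helper62.RC.Mp

/-!
# MP_b55b7c_an: approximate stable rank one passes to the crossed product
-/

open scoped ENNReal NNReal InnerProductSpace ComplexOrder
open Filter Topology

attribute [-instance] CStarMatrix.instAlgebra CStarMatrix.instModule CStarMatrix.instSMul
  CStarMatrix.instMulAction CStarMatrix.instDistribMulAction

set_option linter.unusedSectionVars false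

noncomputable section
namespace RC
universe u

section
variable {A : Type u} [CStarAlgebra A] [PartialOrder A] [StarOrderedRing A]
variable {ι κ μ : Type} [Fintype ι] [DecidableEq ι] [Fintype κ] [DecidableEq κ]
  [Fintype μ] [DecidableEq μ]

theorem ar_mul_add (x : CStarMatrix ι κ A) (y z : CStarMatrix κ μ A) :
    x * (y + z) = x * y + x * z := Matrix.mul_add _ _ _

theorem ar_add_mul (x y : CStarMatrix ι κ A) (z : CStarMatrix κ μ A) :
    (x + y) * z = x * z + y * z := Matrix.add_mul _ _ _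

theorem ar_one1_mono {a b : A} (h : a ≤ b) : one1 a ≤ one1 b := by
  have h9 := map_nonneg (one1H (A := A)) (sub_nonneg.2 h)
  rw [map_sub] at h9
  exact sub_nonneg.1 h9

theorem ar_norm_one1 (a : A) : ‖one1 a‖ = ‖a‖ := by
  have hinj : Function.Injective (one1H (A := A)) := by
    intro x y h
    have h1 : (one1H x : CStarMatrix Unit Unit A) () () = (one1H y) () () := by rw [h]
    exact h1
  exact NonUnitalStarAlgHom.norm_map (one1H (A := A)) hinj a

theorem ar_cu_sand (hLe : CuLeAddP.{u}) (hTr : CuTransP.{u})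
    (b p : CStarMatrix κ κ A) (hb : 0 ≤ b) (hp : 0 ≤ p) : Cu (b * p * b) b := by
  have h0 : 0 ≤ b * p * b := by
    have hbs : star b = b := hb.isSelfAdjoint
    have := star_left_conjugate_nonneg hp b
    rwa [hbs] at this
  have h1 := nearC_sand b p hb hp
  have h2 : 0 ≤ (‖p‖ * ‖b‖) • b := h0.trans h1
  have h3 : Cu (cut (b * p * b) 0) ((‖p‖ * ‖b‖) • b) := hLe A κ _ _ 0 le_rfl h0 h2 (by
    rw [zero_smul, add_zero]; exact h1)
  rw [cut_zero h0] at h3
  exact hTr A κ κ κ _ _ _ h3 (nearC_cu_smul _ (by positivity) b)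

/-- An element of the closed right ideal generated by `f` has rank at most that of `f`. -/
theorem ar_rank_ideal (hSw : CuSwapP.{u}) (hLe : CuLeAddP.{u}) (hTr : CuTransP.{u})
    (hOc : CuOfCutP.{u}) (hMo : QMonoP.{u}) (σ : QTrace A) (f t : A) (hf : 0 ≤ f)
    (ht : ∀ ε : ℝ, 0 < ε → ∃ s : A, ‖t - f * s‖ ≤ ε) :
    σ.dim (one1 (sq t)) ≤ σ.dim (one1 f) := by
  have e1 : one1 (sq t) = (one1 t).conjTranspose * one1 t := by
    ext i j
    rw [CStarMatrix.mul_apply]
    simp [one1]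
  have e2 : one1 (t * star t) = one1 t * (one1 t).conjTranspose := by
    ext i j
    rw [CStarMatrix.mul_apply]
    simp [one1]
  rw [e1]
  refine (nearC_dim_swap hSw hMo σ (one1 t)).trans ?_
  rw [← e2]
  have h0 : 0 ≤ one1 (t * star t) := one1_nonneg (mul_star_self_nonneg t)
  refine hMo A σ Unit Unit _ _ h0 (one1_nonneg hf) (hOc A Unit Unit _ _ h0 ?_)
  intro ε hε
  obtain ⟨δ, hδ, hδε⟩ : ∃ δ : ℝ, 0 < δ ∧ δ * ‖t‖ + (‖t‖ + δ) * δ ≤ ε := by
    refine ⟨min 1 (ε / (2 * ‖t‖ + 1)), by positivity, ?_⟩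
    have h1 : min 1 (ε / (2 * ‖t‖ + 1)) ≤ 1 := min_le_left _ _
    have h2 : min 1 (ε / (2 * ‖t‖ + 1)) ≤ ε / (2 * ‖t‖ + 1) := min_le_right _ _
    have h3 : 0 < min 1 (ε / (2 * ‖t‖ + 1)) := by positivity
    generalize min 1 (ε / (2 * ‖t‖ + 1)) = d at h1 h2 h3
    rw [le_div_iff₀ (by positivity)] at h2
    nlinarith [norm_nonneg t]
  obtain ⟨s, hs⟩ := ht δ hδ
  have hfs : star f = f := hf.isSelfAdjoint
  have h1 : t * star t - f * (s * star s) * f = (t - f * s) * star t + f * s * star (t - f * s) := by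
    rw [star_sub, star_mul, hfs]
    noncomm_ring
  have h2 : ‖t * star t - f * (s * star s) * f‖ ≤ ε := by
    rw [h1]
    have h3 : ‖f * s‖ ≤ ‖t‖ + δ := by
      calc ‖f * s‖ = ‖t - (t - f * s)‖ := by rw [sub_sub_cancel]
        _ ≤ ‖t‖ + ‖t - f * s‖ := norm_sub_le _ _
        _ ≤ ‖t‖ + δ := by linarith
    calc _ ≤ ‖(t - f * s) * star t‖ + ‖f * s * star (t - f * s)‖ := norm_add_le _ _
      _ ≤ ‖t - f * s‖ * ‖star t‖ + ‖f * s‖ * ‖star (t - f * s)‖ :=
        add_le_add (norm_mul_le _ _) (norm_mul_le _ _)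
      _ ≤ δ * ‖t‖ + (‖t‖ + δ) * δ := by
        rw [norm_star, norm_star]
        gcongr
      _ ≤ ε := hδε
  have hp : 0 ≤ f * (s * star s) * f := by
    have := star_left_conjugate_nonneg (mul_star_self_nonneg s) f
    rwa [hfs] at this
  have h3 : t * star t ≤ f * (s * star s) * f + ε • (1 : A) := by
    have hsa : IsSelfAdjoint (t * star t - f * (s * star s) * f) :=
      (mul_star_self_nonneg t).isSelfAdjoint.sub hp.isSelfAdjoint
    have h4 := hsa.le_algebraMap_norm_self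
    rw [Algebra.algebraMap_eq_smul_one] at h4
    have h5 : ‖t * star t - f * (s * star s) * f‖ • (1 : A) ≤ ε • (1 : A) :=
      smul_le_smul_of_nonneg_right h2 zero_le_one
    have h6 := h4.trans h5
    rwa [sub_le_iff_le_add'] at h6
  have h7 : one1 (t * star t) ≤ one1 f * one1 (s * star s) * one1 f +
      ε • (1 : CStarMatrix Unit Unit A) := by
    have h8 := ar_one1_mono h3
    have h9 : one1 (f * (s * star s) * f + ε • (1 : A)) =
        one1 f * one1 (s * star s) * one1 f + ε • (1 : CStarMatrix Unit Unit A) := by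
      have := map_add (one1H (A := A)) (f * (s * star s) * f) (ε • (1 : A))
      rw [map_mul, map_mul] at this
      rw [← one1H_apply, this]
      congr 1
    rwa [h9] at h8
  have h10 : 0 ≤ one1 f * one1 (s * star s) * one1 f := by
    have h11 := one1_nonneg hp
    have h12 : one1 (f * (s * star s) * f) = one1 f * one1 (s * star s) * one1 f := by
      rw [← one1H_apply, map_mul, map_mul]; rfl
    rwa [h12] at h11
  exact hTr A Unit Unit Unit _ _ _ (hLe A Unit _ _ ε hε.le h0 h10 h7)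
    (ar_cu_sand hLe hTr _ _ (one1_nonneg hf) (one1_nonneg (mul_star_self_nonneg s)))

/-- The rank of a column with a factor `L`. -/
theorem ar_rank_col (hSw : CuSwapP.{u}) (hLe : CuLeAddP.{u}) (hMo : QMonoP.{u}) (σ : QTrace A)
    (L : CStarMatrix κ κ A) (hL : 0 ≤ L) (K : CStarMatrix κ μ A) :
    σ.dim ((L * K).conjTranspose * (L * K)) ≤ σ.dim L := by
  refine (nearC_dim_swap hSw hMo σ (L * K)).trans ?_
  have h1 : L * K * (L * K).conjTranspose = L * (K * K.conjTranspose) * L := by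
    rw [cm_conj_mul, cm_star_eq L, hL.isSelfAdjoint.star_eq]
    simp only [cm_assoc]
  rw [h1]
  exact nearC_dim_sand hLe hMo σ _ _ hL (cm_mul_conj_nonneg _)

end

section
variable {A R : Type u} [CStarAlgebra A] [PartialOrder A] [StarOrderedRing A]
  [CStarAlgebra R] [PartialOrder R] [StarOrderedRing R] {G : Type} [Group G] [Fintype G]
  {α : G → A ≃⋆ₐ[ℂ] A} {k : A →⋆ₐ[ℂ] R} {w : G → R}

theorem ar_comm (hw : IsCross α k w) (g : G) (a : A) : w g * k a = k (α g a) * w g := by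
  rw [← hw.2.2.1 g a, mul_assoc, (hw.1 g).1, mul_one]

theorem ar_kinj (hw : IsCross α k w) : Function.Injective k := by
  intro a b hab
  obtain ⟨f, _, hf⟩ := hw.2.2.2 (k a * w 1)
  classical
  have h1 := hf (Pi.single 1 a) (by
    show k a * w 1 = ∑ g, k (Pi.single (M := fun _ => A) 1 a g) * w g
    rw [Finset.sum_eq_single 1]
    · simp
    · intro g _ hg
      simp [Pi.single_eq_of_ne hg]
    · simp)
  have h2 := hf (Pi.single 1 b) (by
    show k a * w 1 = ∑ g, k (Pi.single (M := fun _ => A) 1 b g) * w g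
    rw [Finset.sum_eq_single 1]
    · simp [hab]
    · intro g _ hg
      simp [Pi.single_eq_of_ne hg]
    · simp)
  have h3 := congrFun (h1.trans h2.symm) 1
  simpa using h3

/-- The matrix entries `(k (r i e))* x k (r l e)` are in the subalgebra. -/
theorem ar_mem (hw : IsCross α k w) {e : A} (he : 0 ≤ e) (hinv : ∀ g, α g e = e)
    {C : Type u} [CStarAlgebra C] {j : C →⋆ₐ[ℂ] R} (hsub : IsSubE k w e j)
    (p q : A) (x : R) : ∃ c : C, j c = star (k (p * e)) * x * k (q * e) := by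
  obtain ⟨f, hf, -⟩ := hw.2.2.2 x
  obtain ⟨c, hc⟩ := hsub.mem (fun _ => 0) (fun g => star p * f g * α g q)
  refine ⟨c, ?_⟩
  have hes : star e = e := he.isSelfAdjoint
  rw [hc, hf, ← map_star, star_mul, hes, Finset.mul_sum, Finset.sum_mul]
  refine Finset.sum_congr rfl fun g _ => ?_
  have h2 : k (f g) * w g * k (q * e) = k (f g * (α g q * e)) * w g := by
    rw [mul_assoc, ar_comm hw, ← mul_assoc, ← map_mul, map_mul (α g), hinv]
  rw [zero_smul, zero_add, mul_assoc (k (e * star p)), h2,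
    ← mul_assoc (k (e * star p)) (k _) (w g), ← map_mul]
  congr 2
  noncomm_ring

/-- The elements `j c k(e)` are in the closed right ideal generated by `k e`. -/
theorem ar_ideal (hw : IsCross α k w) {e : A} (hinv : ∀ g, α g e = e)
    {C : Type u} [CStarAlgebra C] {j : C →⋆ₐ[ℂ] R} (hsub : IsSubE k w e j) (c : C) (ε : ℝ)
    (hε : 0 < ε) : ∃ s : R, ‖j c * k e - k e * s‖ ≤ ε := by
  obtain ⟨m, y, hy⟩ := hsub.dense c (ε / (‖k e‖ + 1)) (by positivity)
  refine ⟨∑ g, (m g • (1 : R) + k (y g * e * e)) * w g, ?_⟩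
  have h1 : k e * ∑ g, (m g • (1 : R) + k (y g * e * e)) * w g =
      (∑ g, (m g • (1 : R) + k (e * y g * e)) * w g) * k e := by
    rw [Finset.mul_sum, Finset.sum_mul]
    refine Finset.sum_congr rfl fun g _ => ?_
    rw [mul_assoc _ (w g) (k e), ar_comm hw, hinv, ← mul_assoc, ← mul_assoc]
    congr 1
    rw [mul_add, add_mul, mul_smul_comm, smul_mul_assoc, mul_one, one_mul, ← map_mul, ← map_mul]
    congr 2
    noncomm_ring
  rw [h1, ← sub_mul]
  calc _ ≤ ‖j c - ∑ g, (m g • (1 : R) + k (e * y g * e)) * w g‖ * ‖k e‖ := norm_mul_le _ _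
    _ ≤ ε / (‖k e‖ + 1) * ‖k e‖ := by gcongr
    _ ≤ ε := by
      rw [div_mul_eq_mul_div, div_le_iff₀ (by positivity)]
      nlinarith [norm_nonneg (k e)]

theorem ar_ideal_sum (hw : IsCross α k w) {e : A} (hinv : ∀ g, α g e = e)
    {C : Type u} [CStarAlgebra C] {j : C →⋆ₐ[ℂ] R} (hsub : IsSubE k w e j) {J : ℕ}
    (c : Fin J → C) (v : Fin J → R) (ε : ℝ) (hε : 0 < ε) :
    ∃ s : R, ‖∑ i, j (c i) * (k e * v i) - k e * s‖ ≤ ε := by
  obtain ⟨δ, hδ, hδε⟩ : ∃ δ : ℝ, 0 < δ ∧ δ * ∑ i, ‖v i‖ ≤ ε := by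
    have h0 : 0 ≤ ∑ i, ‖v i‖ := Finset.sum_nonneg fun i _ => norm_nonneg _
    refine ⟨ε / (∑ i, ‖v i‖ + 1), by positivity, ?_⟩
    rw [div_mul_eq_mul_div, div_le_iff₀ (by positivity)]
    nlinarith
  choose s hs using fun i => ar_ideal hw hinv hsub (c i) δ hδ
  refine ⟨∑ i, s i * v i, ?_⟩
  have h1 : ∑ i, j (c i) * (k e * v i) - k e * ∑ i, s i * v i =
      ∑ i, (j (c i) * k e - k e * s i) * v i := by
    rw [Finset.mul_sum, ← Finset.sum_sub_distrib]
    refine Finset.sum_congr rfl fun i _ => ?_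
    noncomm_ring
  rw [h1]
  calc _ ≤ ∑ i, ‖(j (c i) * k e - k e * s i) * v i‖ := norm_sum_le _ _
    _ ≤ ∑ i, δ * ‖v i‖ := Finset.sum_le_sum fun i _ =>
        (norm_mul_le _ _).trans (mul_le_mul_of_nonneg_right (hs i) (norm_nonneg _))
    _ = δ * ∑ i, ‖v i‖ := by rw [Finset.mul_sum]
    _ ≤ ε := hδε

end

theorem asrR (hSm : SmallEP.{u}) (hSub : SubEP.{u}) (hTSC : TSCP.{u}) (hRect : RectP.{u})
    (hLc : LcP.{u}) (hDim : DimP.{u}) (hPull : QPullP.{u}) (hSw : CuSwapP.{u})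
    (hLe : CuLeAddP.{u}) (hTr : CuTransP.{u}) (hOc : CuOfCutP.{u}) (hMo : QMonoP.{u}) :
    AsrRP.{u} := by
  intro A R _ _ _ _ _ _ G _ _ α k w hα hw hSimp hNF hASR x η θ hη hθ
  by_cases hne : Nonempty (TState R)
  swap
  · refine ⟨x, 1, by simpa using hη.le, zero_le_one, ⟨0, 1, by simp⟩, ?_⟩
    intro φ σ _
    exact absurd ⟨φ⟩ hne
  have hA : Nonempty (TState A) := by
    obtain ⟨φ⟩ := hne
    exact ⟨{ φ := φ.φ ∘ₗ k.toAlgHom.toLinearMap
             nonneg := fun a ha => φ.nonneg (k a) (map_nonneg k ha)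
             trace := fun a b => by
               show φ.φ (k (a * b)) = φ.φ (k (b * a))
               rw [map_mul k, map_mul k]
               exact φ.trace _ _
             one := by
               show φ.φ (k 1) = 1
               rw [map_one]
               exact φ.one }⟩
  have hk : Function.Injective k := ar_kinj hw
  have hn : 0 < Fintype.card G := Fintype.card_pos
  obtain ⟨n, hnn⟩ : ∃ n : ℕ, Fintype.card G = n + 1 := ⟨Fintype.card G - 1, by omega⟩
  obtain ⟨e, J, r, he, hinv, hr, hes⟩ := hSm A G α hα hSimp hNF hA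
    (θ / (2 * (n + 1))) (by positivity)
  obtain ⟨C, iC1, iC2, iC3, j, hsub⟩ := hSub A R G α k w hα hw e he hinv
  have hTS : TSJ j (n + 1) := by
    rw [← hnn]
    exact hTSC A R G α k w hα hw hASR e he hinv C j hsub
  have hestar : star e = e := he.isSelfAdjoint
  obtain ⟨W, hWdef⟩ : ∃ W : CStarMatrix Unit (Fin J) R,
    W = CStarMatrix.ofMatrix (fun _ i => k (r i * e)) := ⟨_, rfl⟩
  have hWa : ∀ i, W () i = k (r i * e) := fun i => by rw [hWdef]; rfl
  have hWs : ∀ i, W.conjTranspose i () = k e * k (star (r i)) := fun i => by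
    show star (W () i) = _
    rw [hWa, ← map_star, star_mul, hestar, map_mul]
  have hWW : W * W.conjTranspose = 1 := by
    ext a b
    rw [CStarMatrix.mul_apply]
    have h1 : ∑ i, W a i * W.conjTranspose i b = k (∑ i, r i * (e * e) * star (r i)) := by
      rw [map_sum]
      refine Finset.sum_congr rfl fun i _ => ?_
      rw [show a = () from rfl, show b = () from rfl, hWa, hWs, ← map_mul, ← map_mul]
      congr 1
      noncomm_ring
    rw [h1, hr, map_one]
    rfl
  -- the matrices over `C`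
  have hmemW : ∀ y : R, ∃ M : CStarMatrix (Fin J) (Fin J) C,
      mp j M = W.conjTranspose * one1 y * W := by
    intro y
    choose c hc using fun i l => ar_mem hw he hinv hsub (r i) (r l) y
    refine ⟨CStarMatrix.ofMatrix fun i l => c i l, ?_⟩
    ext i l
    rw [CStarMatrix.mul_apply, Fintype.sum_unique, CStarMatrix.mul_apply, Fintype.sum_unique]
    show j (c i l) = star (W () i) * y * W () l
    rw [hc, hWa, hWa]
  obtain ⟨N, hN⟩ := hmemW x
  obtain ⟨Q, hQ1⟩ := hmemW 1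
  have hQ : mp j Q = W.conjTranspose * W := by
    rw [hQ1]
    have : one1 (1 : R) = (1 : CStarMatrix Unit Unit R) := map_one (one1H (A := R))
    rw [this, cm_mul_one]
  have hinj : Function.Injective
      (mp j : CStarMatrix (Fin J) (Fin J) C → CStarMatrix (Fin J) (Fin J) R) :=
    H62.mp_inj j hsub.inj
  have hWQ : W * (W.conjTranspose * W) = W := by
    rw [← cm_assoc, hWW, cm_one_mul]
  have hQW : W.conjTranspose * W * W.conjTranspose = W.conjTranspose := by
    rw [cm_assoc, hWW, cm_mul_one]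
  have hQQ : Q * Q = Q := by
    apply hinj
    rw [H62.mp_mul, hQ, cm_assoc W.conjTranspose W, hWQ]
  have hQN : Q * N = N := by
    apply hinj
    rw [H62.mp_mul, hQ, hN, ← cm_assoc, ← cm_assoc, hQW]
  have hNQ : N * Q = N := by
    apply hinj
    rw [H62.mp_mul, hQ, hN, cm_assoc (W.conjTranspose * one1 x) W, hWQ]
  -- constants
  obtain ⟨κ, hκ1, hκ2, hκ3⟩ : ∃ κ : ℝ, 1 ≤ κ ∧ ‖Q‖ ≤ κ ∧ ‖1 - Q‖ ≤ κ :=
    ⟨‖Q‖ + ‖1 - Q‖ + 1, by linarith [norm_nonneg Q, norm_nonneg (1 - Q)],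
      by linarith [norm_nonneg (1 - Q)], by linarith [norm_nonneg Q]⟩
  obtain ⟨t, ht0, ht1, ht2⟩ : ∃ t : ℝ, 0 < t ∧ κ ^ 2 * t ≤ 1 / 2 ∧
      ‖W‖ * (2 * (κ ^ 2 * t)) * ‖W.conjTranspose‖ ≤ η := by
    have hc : 0 ≤ ‖W‖ * ‖W.conjTranspose‖ := by positivity
    refine ⟨min (1 / 2) (η / (2 * (‖W‖ * ‖W.conjTranspose‖) + 1)) / κ ^ 2, by positivity, ?_, ?_⟩
    · rw [mul_div_cancel₀ _ (by positivity)]
      exact min_le_left _ _
    · rw [mul_div_cancel₀ _ (by positivity)]
      have h1 : min (1 / 2) (η / (2 * (‖W‖ * ‖W.conjTranspose‖) + 1)) ≤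
        η / (2 * (‖W‖ * ‖W.conjTranspose‖) + 1) := min_le_right _ _
      have h3 : 0 < min (1 / 2) (η / (2 * (‖W‖ * ‖W.conjTranspose‖) + 1)) := by positivity
      generalize min (1 / 2) (η / (2 * (‖W‖ * ‖W.conjTranspose‖) + 1)) = d at h1 h3
      rw [le_div_iff₀ (by positivity)] at h1
      nlinarith
  -- the rectangular matrix
  obtain ⟨P, hP⟩ : ∃ P : CStarMatrix (Fin J) (Fin J ⊕ Fin n) C,
    P = CStarMatrix.ofMatrix (fun i p => if Sum.inl i = p then 1 else 0) := ⟨_, rfl⟩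
  obtain ⟨X0, hX0⟩ : ∃ X0 : CStarMatrix (Fin J ⊕ Fin n) (Fin J) C,
    X0 = CStarMatrix.ofMatrix (fun p l => Sum.elim (fun i => (N + (1 - Q)) i l) (fun _ => 0) p) :=
    ⟨_, rfl⟩
  obtain ⟨X', a, b, L, hX', hL, hab, hSm'⟩ := hRect C R j (n + 1) hsub.inj (by omega) hTS J
    (Fin J ⊕ Fin n) (by simp; omega) X0 (t / (‖P‖ + 1)) (θ / 2) (by positivity) (by positivity)
  have hPM : ∀ (M : CStarMatrix (Fin J ⊕ Fin n) (Fin J) C) (i l : Fin J),
      (P * M) i l = M (Sum.inl i) l := by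
    intro M i l
    rw [CStarMatrix.mul_apply, Finset.sum_eq_single (Sum.inl i)]
    · rw [hP]
      simp
    · intro p _ hp
      rw [hP]
      simp [Ne.symm hp]
    · simp
  obtain ⟨Z, hZ⟩ : ∃ Z : CStarMatrix (Fin J) (Fin J) C,
    Z = CStarMatrix.ofMatrix (fun i l => X' (Sum.inl i) l) := ⟨_, rfl⟩
  obtain ⟨Y, hY⟩ : ∃ Y : CStarMatrix (Fin n) (Fin J) C,
    Y = CStarMatrix.ofMatrix (fun i l => X' (Sum.inr i) l) := ⟨_, rfl⟩
  obtain ⟨a1, ha1⟩ : ∃ a1 : CStarMatrix (Fin J) (Fin J) C,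
    a1 = CStarMatrix.ofMatrix (fun i l => a i (Sum.inl l)) := ⟨_, rfl⟩
  obtain ⟨a2, ha2⟩ : ∃ a2 : CStarMatrix (Fin J) (Fin n) C,
    a2 = CStarMatrix.ofMatrix (fun i l => a i (Sum.inr l)) := ⟨_, rfl⟩
  have haX : a * X' = a1 * Z + a2 * Y := by
    ext i l
    rw [CStarMatrix.mul_apply, Fintype.sum_sum_type, CStarMatrix.add_apply,
      CStarMatrix.mul_apply, CStarMatrix.mul_apply, hZ, hY, ha1, ha2]
    rfl
  have hZn : ‖Z - (N + (1 - Q))‖ ≤ t := by
    have h1 : Z - (N + (1 - Q)) = P * (X' - X0) := by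
      ext i l
      rw [hPM]
      show Z i l - (N + (1 - Q)) i l = X' (Sum.inl i) l - X0 (Sum.inl i) l
      rw [hZ, hX0]
      rfl
    rw [h1]
    calc _ ≤ ‖P‖ * ‖X' - X0‖ := cm_norm_mul_le _ _
      _ ≤ ‖P‖ * (t / (‖P‖ + 1)) := by
        rw [norm_sub_rev]
        gcongr
      _ ≤ t := by
        rw [mul_div_assoc', div_le_iff₀ (by positivity)]
        nlinarith [norm_nonneg P]
  obtain ⟨Y1, hG1, hG2, hG3⟩ := ar_corner Q N Z κ t hQQ hQN hNQ hκ2 hκ3 ht1 hZn
  obtain ⟨Gm, hGm⟩ : ∃ Gm : CStarMatrix (Fin J) (Fin J) C, Gm = Y1 * Q := ⟨_, rfl⟩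
  rw [← hGm] at hG1 hG2 hG3
  have hQS : Q * (Z * Gm) = Z * Gm := by
    rw [sub_mul, one_mul, sub_eq_zero] at hG2
    exact hG2.symm
  -- the identity over `C`
  have hid : Q * a1 * (Z * Gm) + (Q * a2) * (Y * Gm) + (Q * b) * (L * Gm) = Q := by
    have h1 : Q * (a * X' + b * L) * Gm = Q := by
      rw [hab, mul_one, hG1]
    rw [haX, ar_mul_add, ar_mul_add, ar_add_mul, ar_add_mul] at h1
    rw [← cm_assoc Q a1 Z, ← cm_assoc Q a2 Y, ← cm_assoc Q b L, cm_assoc (Q * a1) Z,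
      cm_assoc (Q * a2) Y, cm_assoc (Q * b) L] at h1
    exact h1
  -- the identity over `R`
  obtain ⟨S', hS'⟩ : ∃ S' : CStarMatrix (Fin J) (Fin J) R, S' = mp j (Z * Gm) := ⟨_, rfl⟩
  have hS'2 : W.conjTranspose * W * S' = S' := by
    rw [hS', ← hQ, ← H62.mp_mul, hQS]
  have hidR : mp j (Q * a1) * S' + mp j (Q * a2) * mp j (Y * Gm) +
      mp j (Q * b) * mp j (L * Gm) = W.conjTranspose * W := by
    rw [hS', ← H62.mp_mul, ← H62.mp_mul, ← H62.mp_mul, ← hQ]
    conv_rhs => rw [← hid]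
    have h1 := map_add (H62.mpH (Fin J) j) (Q * a1 * (Z * Gm) + (Q * a2) * (Y * Gm))
      ((Q * b) * (L * Gm))
    have h2 := map_add (H62.mpH (Fin J) j) (Q * a1 * (Z * Gm)) ((Q * a2) * (Y * Gm))
    rw [h2] at h1
    exact h1.symm
  obtain ⟨P1, hP1⟩ : ∃ P1 : CStarMatrix Unit Unit R,
    P1 = W * mp j (Q * a1) * W.conjTranspose := ⟨_, rfl⟩
  obtain ⟨X1, hX1⟩ : ∃ X1 : CStarMatrix Unit Unit R, X1 = W * S' * W.conjTranspose := ⟨_, rfl⟩
  obtain ⟨P2, hP2⟩ : ∃ P2 : CStarMatrix Unit (Fin n) R, P2 = W * mp j (Q * a2) := ⟨_, rfl⟩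
  obtain ⟨P3, hP3⟩ : ∃ P3 : CStarMatrix Unit (Fin J) R, P3 = W * mp j (Q * b) := ⟨_, rfl⟩
  obtain ⟨T, hT⟩ : ∃ T : CStarMatrix (Fin n) Unit R,
    T = mp j (Y * Gm) * W.conjTranspose := ⟨_, rfl⟩
  obtain ⟨U, hU⟩ : ∃ U : CStarMatrix (Fin J) Unit R,
    U = mp j (L * Gm) * W.conjTranspose := ⟨_, rfl⟩
  have hone : P1 * X1 + P2 * T + P3 * U = 1 := by
    have h1 : W * (W.conjTranspose * W) * W.conjTranspose = 1 := by
      rw [hWQ, hWW]
    rw [← hidR, ar_mul_add, ar_mul_add, ar_add_mul, ar_add_mul] at h1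
    rw [← h1, hP1, hX1, hP2, hT, hP3, hU]
    congr 1
    · congr 1
      · conv_rhs => rw [← hS'2]
        simp only [cm_assoc]
      · simp only [cm_assoc]
    · simp only [cm_assoc]
  have hent : P1 () () * X1 () () + ∑ i : Fin (n + J),
      Fin.append (fun m => P2 () m) (fun i => P3 () i) i *
        Fin.append (fun m => T m ()) (fun i => U i ()) i = 1 := by
    have h1 : (P1 * X1 + P2 * T + P3 * U) () () = (1 : CStarMatrix Unit Unit R) () () := by
      rw [hone]
    rw [CStarMatrix.add_apply, CStarMatrix.add_apply, CStarMatrix.mul_apply,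
      CStarMatrix.mul_apply, CStarMatrix.mul_apply, Fintype.sum_unique] at h1
    rw [Fin.sum_univ_add]
    simp only [Fin.append_left, Fin.append_right]
    rw [← add_assoc]
    exact h1
  obtain ⟨hL0, hLI⟩ := hLc R (n + J) (X1 () ()) (P1 () ()) _ _ hent
  have hsum : ∑ i : Fin (n + J), sq (Fin.append (fun m => T m ()) (fun i => U i ()) i) =
      ∑ m, sq (T m ()) + ∑ i, sq (U i ()) := by
    rw [Fin.sum_univ_add]
    simp only [Fin.append_left, Fin.append_right]
  refine ⟨X1 () (), ∑ i : Fin (n + J), sq (Fin.append (fun m => T m ()) (fun i => U i ()) i),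
    ?_, hL0, hLI, ?_⟩
  · -- the distance
    have h1 : one1 (x - X1 () ()) = W * (mp j (N - Z * Gm)) * W.conjTranspose := by
      rw [H62.mp_sub, cm_mul_sub, cm_sub_mul, hN, ← hS', ← hX1]
      have h2 : W * (W.conjTranspose * one1 x * W) * W.conjTranspose = one1 x := by
        calc W * (W.conjTranspose * one1 x * W) * W.conjTranspose =
            (W * W.conjTranspose) * one1 x * (W * W.conjTranspose) := by simp only [cm_assoc]
          _ = one1 x := by rw [hWW, cm_one_mul, cm_mul_one]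
      rw [h2]
      rfl
    rw [← ar_norm_one1, h1]
    calc _ ≤ ‖W * mp j (N - Z * Gm)‖ * ‖W.conjTranspose‖ := cm_norm_mul_le _ _
      _ ≤ (‖W‖ * ‖mp j (N - Z * Gm)‖) * ‖W.conjTranspose‖ := by
        gcongr
        exact cm_norm_mul_le _ _
      _ ≤ (‖W‖ * (2 * (κ ^ 2 * t))) * ‖W.conjTranspose‖ := by
        rw [H62.mp_norm j hsub.inj, norm_sub_rev]
        gcongr
      _ ≤ η := ht2
  · -- the rank
    intro φ σ hφ
    rw [hsum]
    have h1 : σ.dim (one1 (∑ m, sq (T m ()) + ∑ i, sq (U i ()))) ≤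
        σ.dim (one1 (∑ m, sq (T m ()))) + σ.dim (one1 (∑ i, sq (U i ()))) := by
      have h2 := (hDim R σ).2.1 2 ![∑ m, sq (T m ()), ∑ i, sq (U i ())] (by
        intro i
        fin_cases i
        · show 0 ≤ ∑ m, sq (T m ())
          exact Finset.sum_nonneg fun m _ => star_mul_self_nonneg _
        · show 0 ≤ ∑ i, sq (U i ())
          exact Finset.sum_nonneg fun m _ => star_mul_self_nonneg _)
      simpa [Fin.sum_univ_two] using h2
    have h2 : σ.dim (one1 (∑ m, sq (T m ()))) ≤ n * (θ / (2 * (n + 1))) := by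
      have h3 := (hDim R σ).2.1 n (fun m => sq (T m ())) (fun m => star_mul_self_nonneg _)
      have h4 : ∀ m : Fin n, σ.dim (one1 (sq (T m ()))) ≤ θ / (2 * (n + 1)) := by
        intro m
        have hTm : T m () = ∑ i, j ((Y * Y1) m i) * (k e * k (star (r i))) := by
          have h5 : T = mp j (Y * Y1) * W.conjTranspose := by
            rw [hT, hGm, ← cm_assoc, H62.mp_mul, hQ, cm_assoc, hQW]
          rw [h5, CStarMatrix.mul_apply]
          refine Finset.sum_congr rfl fun i _ => ?_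
          rw [hWs]
          rfl
        have h6 : σ.dim (one1 (sq (T m ()))) ≤ σ.dim (one1 (k e)) := by
          refine ar_rank_ideal hSw hLe hTr hOc hMo σ (k e) (T m ()) (map_nonneg k he) ?_
          intro ε hε
          rw [hTm]
          exact ar_ideal_sum hw hinv hsub _ _ ε hε
        obtain ⟨ω, hω⟩ := hPull R A k hk σ
        have h7 : σ.dim (one1 (k e)) = ω.dim (one1 e) := by
          rw [hω Unit (one1 e) (one1_nonneg he), mp_one1]
        rw [h7] at h6
        exact h6.trans (hes ω)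
      calc _ ≤ ∑ m : Fin n, σ.dim (one1 (sq (T m ()))) := h3
        _ ≤ ∑ _m : Fin n, θ / (2 * (n + 1)) := Finset.sum_le_sum fun m _ => h4 m
        _ = _ := by simp
    have h3 : σ.dim (one1 (∑ i, sq (U i ()))) ≤ θ / 2 := by
      have h4 : one1 (∑ i, sq (U i ())) = U.conjTranspose * U := by
        ext a b
        rw [CStarMatrix.mul_apply]
        rfl
      have h5 : U = mp j L * (mp j Gm * W.conjTranspose) := by
        rw [hU, H62.mp_mul, cm_assoc]
      have hL' : 0 ≤ mp j L := (H62.mp_nonneg_iff j hsub.inj L).1 hL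
      rw [h4, h5]
      exact (ar_rank_col hSw hLe hMo σ (mp j L) hL' _).trans (hSm' φ σ hφ)
    have h4 : (n : ℝ) * (θ / (2 * (n + 1))) ≤ θ / 2 := by
      rw [mul_div_assoc', div_le_div_iff₀ (by positivity) (by positivity)]
      nlinarith
    linarith

end RC
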